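import Pool.Agent.Helper98.GX.St2

set_option autoImplicit false

namespace Pool.Agent.Helper55.GX

open Pool.Agent.Helper98.GX
open Pool.Agent.Helper53.CX (DivVal LinSys IsNefCartier)

open scoped BigOperators

/-- the divisor `D_k` on `V.primes` -/
private noncomputable def DD {K : Type} [Field K] [Algebra ℂ K] {V : NormalProj K} {r : ℕ}
    (B : ClassBasis V r) (hfin : ∀ k, {p : DivVal K | p ∈ V.primes ∧ (B.H k).div p ≠ 0}.Finite)
    (k : Fin r) : V.primes →₀ ℝ :=
  Finsupp.ofSupportFinite (fun p => (((B.H k).div p.1 : ℤ) : ℝ)) (by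
    have h := (hfin k).preimage (f := (Subtype.val : V.primes → DivVal K))
      Subtype.val_injective.injOn
    refine h.subset ?_
    intro p hp
    refine ⟨p.2, ?_⟩
    intro h0
    apply hp
    simp [h0])

theorem hCBS (_hFSP : StFSP) (hCBD : StCBD) : StCBS := by
  intro K _ _ V r B
  obtain ⟨-, hfin, -, -⟩ := hCBD K V r B
  have hspan : Submodule.span ℝ (Set.range (fun k => (princ V.primes).mkQ (DD B hfin k))) = ⊤ := by
    rw [eq_top_iff]
    intro c _
    obtain ⟨D, rfl⟩ := Submodule.mkQ_surjective _ c
    induction D using Finsupp.induction_linear with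
    | zero => simp
    | add f g hf hg => 
      rw [map_add]
      exact Submodule.add_mem _ (hf trivial) (hg trivial)
    | single p a =>
      have h1 : (Finsupp.single p a : V.primes →₀ ℝ) = a • Finsupp.single p (1 : ℝ) := by simp
      rw [h1, map_smul]
      refine Submodule.smul_mem _ _ ?_
      obtain ⟨φ, hφ, hp, hq⟩ := B.sec p.1 p.2
      have h2 : (Finsupp.single p (1 : ℝ) : V.primes →₀ ℝ) -
          ∑ k, (B.deg p.1 k : ℝ) • DD B hfin k ∈ princ V.primes := by
        refine ⟨Finsupp.single φ 1, fun v => ?_⟩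
        rw [rdiv, Finsupp.sum_single_index (by simp), one_mul, Finsupp.sub_apply,
          Finsupp.finsetSum_apply]
        have h3 : ∀ k, (DD B hfin k) v = (((B.H k).div v.1 : ℤ) : ℝ) := fun k => rfl
        simp only [Finsupp.smul_apply, smul_eq_mul, h3]
        by_cases hv : v = p
        · subst hv
          rw [Finsupp.single_eq_same]
          have h4 : ((v.1.ord φ + ∑ k, (B.deg v.1 k : ℤ) * (B.H k).div v.1 : ℤ) : ℝ) = 1 := by
            rw [hp]; simp
          push_cast at h4
          linarith
        · rw [Finsupp.single_eq_of_ne hv]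
          have h4 := hq v.1 v.2 (fun h => hv (Subtype.ext h))
          have h5 : ((v.1.ord φ + ∑ k, (B.deg p.1 k : ℤ) * (B.H k).div v.1 : ℤ) : ℝ) = 0 := by
            rw [h4]; simp
          push_cast at h5
          linarith
      have h6 : (princ V.primes).mkQ (Finsupp.single p (1 : ℝ)) =
          ∑ k, (B.deg p.1 k : ℝ) • (princ V.primes).mkQ (DD B hfin k) := by
        have h7 : (princ V.primes).mkQ ((Finsupp.single p (1 : ℝ) : V.primes →₀ ℝ) -
          ∑ k, (B.deg p.1 k : ℝ) • DD B hfin k) = 0 := by
          rw [Submodule.mkQ_apply]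
          exact (Submodule.Quotient.mk_eq_zero _).2 h2
        rw [map_sub, sub_eq_zero] at h7
        rw [h7, map_sum]
        simp only [map_smul]
      rw [h6]
      refine Submodule.sum_mem _ fun k _ => Submodule.smul_mem _ _ ?_
      exact Submodule.subset_span ⟨k, rfl⟩
  rw [← rank_top ℝ (Cl V.primes), ← hspan]
  refine (rank_span_le _).trans ?_
  refine Cardinal.mk_range_le.trans ?_
  simp

end Pool.Agent.Helper55.GX
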