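import Pool.Agent.Helper98.GX.St

/-!
Module JLB of project GX (owner helper98): a logarithmic form has at most simple poles.
-/

set_option autoImplicit false

namespace Pool.Agent.Helper55.GX

open Pool.Agent.Helper98.GX
open Pool.Agent.Helper53.CX (DivVal LinSys IsNefCartier)
open scoped BigOperators

/-! ### Orders -/

private lemma ord_one {K : Type} [Field K] [Algebra ℂ K] (v : DivVal K) : v.ord 1 = 0 := by
  have h := v.ord_mul 1 1 one_ne_zero one_ne_zero
  rw [mul_one] at h
  linarith

private lemma ord_inv {K : Type} [Field K] [Algebra ℂ K] (v : DivVal K) (t : K) (ht : t ≠ 0) :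
    v.ord t⁻¹ = - v.ord t := by
  have h := v.ord_mul t t⁻¹ ht (inv_ne_zero ht)
  rw [mul_inv_cancel₀ ht, ord_one] at h
  linarith

private lemma ord_pow {K : Type} [Field K] [Algebra ℂ K] (v : DivVal K) (t : K) (ht : t ≠ 0)
    (m : ℕ) : v.ord (t ^ m) = (m : ℤ) * v.ord t := by
  induction m with
  | zero => simp [ord_one]
  | succ m ih =>
    rw [pow_succ, v.ord_mul _ _ (pow_ne_zero _ ht) ht, ih]
    push_cast
    ring

private lemma ord_zpow {K : Type} [Field K] [Algebra ℂ K] (v : DivVal K) (t : K) (ht : t ≠ 0)
    (m : ℤ) : v.ord (t ^ m) = m * v.ord t := by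
  obtain ⟨k, rfl | rfl⟩ := m.eq_nat_or_neg
  · rw [zpow_natCast, ord_pow v t ht]
  · rw [zpow_neg, zpow_natCast, ord_inv v _ (pow_ne_zero _ ht), ord_pow v t ht]
    ring

private lemma ord_prod {K : Type} [Field K] [Algebra ℂ K] (v : DivVal K) {n : ℕ} (f : Fin n → K)
    (hf : ∀ i, f i ≠ 0) : v.ord (∏ i, f i) = ∑ i, v.ord (f i) := by
  classical
  induction (Finset.univ : Finset (Fin n)) using Finset.induction_on with
  | empty => simp [ord_one]
  | insert a s ha ih =>
    rw [Finset.prod_insert ha, Finset.sum_insert ha,
      v.ord_mul _ _ (hf a) (Finset.prod_ne_zero_iff.mpr fun i _ => hf i), ih]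

private lemma ord_int {K : Type} [Field K] [Algebra ℂ K] (v : DivVal K) (a : ℤ)
    (ha : (a : K) ≠ 0) : 0 ≤ v.ord (a : K) := by
  obtain ⟨R, _, hR, _⟩ := v.exists_model
  exact hR _ (intCast_mem R a) ha

/-- zero or of positive order -/
private def Pos {K : Type} [Field K] [Algebra ℂ K] (v : DivVal K) (x : K) : Prop :=
  x = 0 ∨ 1 ≤ v.ord x

private lemma Pos.add {K : Type} [Field K] [Algebra ℂ K] {v : DivVal K} {x y : K}
    (hx : Pos v x) (hy : Pos v y) : Pos v (x + y) := by
  by_cases hx0 : x = 0
  · rw [hx0, zero_add]
    exact hy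
  by_cases hy0 : y = 0
  · rw [hy0, add_zero]
    exact hx
  by_cases hxy : x + y = 0
  · exact Or.inl hxy
  right
  have h1 := hx.resolve_left hx0
  have h2 := hy.resolve_left hy0
  exact (le_min h1 h2).trans (v.ord_add x y hx0 hy0 hxy)

private lemma Pos.sum {K : Type} [Field K] [Algebra ℂ K] {v : DivVal K} {n : ℕ} {f : Fin n → K}
    (hf : ∀ i, Pos v (f i)) : Pos v (∑ i, f i) := by
  classical
  induction (Finset.univ : Finset (Fin n)) using Finset.induction_on with
  | empty => exact Or.inl (by simp)
  | insert a s ha ih =>
    rw [Finset.sum_insert ha]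
    exact (hf a).add ih

private lemma Pos.int_mul {K : Type} [Field K] [Algebra ℂ K] {v : DivVal K} {x : K} (a : ℤ)
    (hx : Pos v x) : Pos v ((a : K) * x) := by
  by_cases ha : (a : K) = 0
  · left
    rw [ha, zero_mul]
  by_cases hx0 : x = 0
  · left
    rw [hx0, mul_zero]
  right
  rw [v.ord_mul _ _ ha hx0]
  have h1 := hx.resolve_left hx0
  have h2 := ord_int v a ha
  linarith

/-! ### The determinant of a rank one perturbation -/

private lemma det_rank_one {K : Type} [Field K] {n : ℕ} (E : Matrix (Fin n) (Fin n) K)
    (a : Fin n → K) (τ : Fin n → K) (s : Finset (Fin n)) :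
    Matrix.det (Matrix.of fun i j => E i j + (if i ∈ s then a i else 0) * τ j) =
      E.det + ∑ i ∈ s, a i * (E.updateRow i τ).det := by
  classical
  induction s using Finset.induction_on with
  | empty =>
    have : (Matrix.of fun i j => E i j + (if i ∈ (∅ : Finset (Fin n)) then a i else 0) * τ j) = E := by
      ext i j
      simp
    rw [this]
    simp
  | insert k s hk ih =>
    set M : Matrix (Fin n) (Fin n) K :=
      Matrix.of fun i j => E i j + (if i ∈ s then a i else 0) * τ j with hM
    have h1 : (Matrix.of fun i j => E i j + (if i ∈ insert k s then a i else 0) * τ j) =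
        M.updateRow k (E k + a k • τ) := by
      ext i j
      by_cases hik : i = k
      · subst hik
        simp [Matrix.updateRow_self]
      · rw [Matrix.updateRow_ne hik]
        simp [hM, hik]
    have h2 : M.updateRow k (E k) = M := by
      ext i j
      by_cases hik : i = k
      · subst hik
        simp [Matrix.updateRow_self, hM, hk]
      · rw [Matrix.updateRow_ne hik]
    have h3 : (M.updateRow k τ).det = (E.updateRow k τ).det := by
      refine Matrix.det_eq_of_forall_row_eq_smul_add_const
        (fun i => if i ∈ s then a i else 0) k (by simp [hk]) ?_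
      intro i j
      by_cases hik : i = k
      · subst hik
        simp [Matrix.updateRow_self, hk]
      · rw [Matrix.updateRow_ne hik, Matrix.updateRow_ne hik, Matrix.updateRow_self]
        simp [hM]
    rw [h1, Matrix.det_updateRow_add, Matrix.det_updateRow_smul, h2, h3, ih,
      Finset.sum_insert hk]
    ring

/-- The logarithmic Jacobian determinant. -/
private lemma det_log {K : Type} [Field K] [Algebra ℂ K] {n : ℕ} (L : LogCoord K n)
    (f : Fin n → K) :
    Matrix.det (Matrix.of fun i j => (f i)⁻¹ * L.θ j (f i)) = (∏ i, (f i)⁻¹) * jac L f := by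
  rw [jac]
  exact Matrix.det_mul_column (fun i => (f i)⁻¹) (Matrix.of fun i j => L.θ j (f i))

theorem hJLB : StJLB := by
  intro K _ _ n L v
  classical
  have hz0 : ∀ i, L.z i ≠ 0 := fun i => L.basis.1.ne_zero i
  unfold ordOmega
  by_cases h : ∃ e : ℤ, IsJacMin L v e
  swap
  · rw [dif_neg h]
    exact ⟨by norm_num, fun _ => le_refl _⟩
  rw [dif_pos h]
  have he := h.choose_spec.1
  set e := h.choose with hedef
  constructor
  · -- the general case
    by_contra hcon
    have he2 : 2 ≤ e := by omega
    obtain ⟨t, ht, ht1⟩ := v.exists_one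
    set a : Fin n → ℤ := fun i => v.ord (L.z i) with ha
    set ε : Fin n → K := fun i => L.z i * t ^ (-(a i)) with hε
    have hε0 : ∀ i, ε i ≠ 0 := fun i => mul_ne_zero (hz0 i) (zpow_ne_zero _ ht)
    have hεord : ∀ i, v.ord (ε i) = 0 := by
      intro i
      simp only [hε, ha]
      rw [v.ord_mul _ _ (hz0 i) (zpow_ne_zero _ ht), ord_zpow v t ht, ht1]
      ring
    have hzε : ∀ i, L.z i = t ^ (a i) * ε i := by
      intro i
      simp only [hε]
      rw [mul_comm (L.z i), ← mul_assoc, ← zpow_add₀ ht, add_neg_cancel, zpow_zero, one_mul]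
    set τ : Fin n → K := fun j => t⁻¹ * L.θ j t with hτ
    set E : Matrix (Fin n) (Fin n) K := Matrix.of fun i j => (ε i)⁻¹ * L.θ j (ε i) with hE
    have hmat : (Matrix.of fun i j => E i j +
        (if i ∈ (Finset.univ : Finset (Fin n)) then (a i : K) else 0) * τ j) = 1 := by
      ext i j
      simp only [Matrix.of_apply, Finset.mem_univ, if_true, hE, hτ]
      have h1 : L.θ j (L.z i) = t ^ (a i) * L.θ j (ε i) +
          ε i * ((a i : K) * (t ^ (a i - 1) * L.θ j t)) := by
        rw [hzε i, Derivation.leibniz, Derivation.leibniz_zpow]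
        simp only [smul_eq_mul, zsmul_eq_mul]
      have h2 : (L.z i)⁻¹ * L.θ j (L.z i) = (ε i)⁻¹ * L.θ j (ε i) + (a i : K) * (t⁻¹ * L.θ j t) := by
        rw [h1, hzε i, zpow_sub_one₀ ht]
        have hta : t ^ (a i) ≠ 0 := zpow_ne_zero _ ht
        have := hε0 i
        field_simp
      rw [← h2, L.theta_z]
      by_cases hij : i = j
      · subst hij
        rw [if_pos rfl, Matrix.one_apply_eq, inv_mul_cancel₀ (hz0 i)]
      · rw [if_neg hij, Matrix.one_apply_ne hij, mul_zero]
    have hdet := det_rank_one E (fun i => (a i : K)) τ Finset.univ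
    rw [hmat, Matrix.det_one] at hdet
    -- the logarithmic determinant of elements of order `0` and at most one of order `1`
    have key : ∀ f : Fin n → K, (∀ i, f i ≠ 0) → (∀ i, 0 ≤ v.ord (f i)) →
        ∑ i, v.ord (f i) ≤ 1 → Pos v (Matrix.det (Matrix.of fun i j => (f i)⁻¹ * L.θ j (f i))) := by
      intro f hf0 hf1 hf2
      rw [det_log]
      by_cases hj : jac L f = 0
      · left
        rw [hj, mul_zero]
      right
      have hp : (∏ i, (f i)⁻¹) ≠ 0 := Finset.prod_ne_zero_iff.mpr fun i _ => inv_ne_zero (hf0 i)
      rw [v.ord_mul _ _ hp hj, ord_prod v _ fun i => inv_ne_zero (hf0 i)]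
      have h1 : ∑ i, v.ord (f i)⁻¹ = - ∑ i, v.ord (f i) := by
        rw [← Finset.sum_neg_distrib]
        exact Finset.sum_congr rfl fun i _ => ord_inv v _ (hf0 i)
      have h2 := he f hf1 hj
      rw [h1]
      linarith
    have hP : Pos v (1 : K) := by
      rw [hdet]
      refine Pos.add ?_ (Pos.sum fun i => Pos.int_mul (a i) ?_)
      · refine key ε hε0 (fun i => (hεord i).ge) ?_
        rw [Finset.sum_eq_zero fun i _ => hεord i]
        norm_num
      · have hrow : E.updateRow i τ =
            Matrix.of fun k j => (Function.update ε i t k)⁻¹ * L.θ j (Function.update ε i t k) := by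
          ext k j
          by_cases hki : k = i
          · subst hki
            simp [Matrix.updateRow_self, hτ]
          · rw [Matrix.updateRow_ne hki]
            simp [Function.update_of_ne hki, hE]
        rw [hrow]
        have hupd : ∀ k, v.ord (Function.update ε i t k) = if k = i then 1 else 0 := by
          intro k
          by_cases hki : k = i
          · subst hki
            simp [ht1]
          · rw [Function.update_of_ne hki, if_neg hki]
            exact hεord k
        refine key _ ?_ ?_ ?_
        · intro k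
          by_cases hki : k = i
          · subst hki
            simpa using ht
          · rw [Function.update_of_ne hki]
            exact hε0 k
        · intro k
          rw [hupd k]
          split_ifs <;> norm_num
        · rw [Finset.sum_congr rfl fun k _ => hupd k]
          simp
    rcases hP with h0 | h1
    · exact one_ne_zero h0
    · rw [ord_one] at h1
      norm_num at h1
  · -- all coordinates are units
    intro hz
    have hjac : jac L L.z = ∏ i, L.z i := by
      rw [jac]
      have : (Matrix.of fun i j => L.θ j (L.z i)) = Matrix.diagonal L.z := by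
        ext i j
        rw [Matrix.of_apply, L.theta_z, Matrix.diagonal_apply]
      rw [this, Matrix.det_diagonal]
    have hne : jac L L.z ≠ 0 := by
      rw [hjac]
      exact Finset.prod_ne_zero_iff.mpr fun i _ => hz0 i
    have h1 := he L.z (fun i => (hz i).ge) hne
    rw [hjac, ord_prod v _ hz0, Finset.sum_eq_zero fun i _ => hz i] at h1
    linarith

end Pool.Agent.Helper55.GX
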